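import Pool.Agent.H42.TSP.Final

set_option autoImplicit false

/-!
# The variance of the random Euclidean travelling salesman tour converges

`shortestTour x` is the length of a shortest closed tour through the points `x 0, .., x (n - 1)` of the
Euclidean plane: the minimum over all the orders `σ` of `∑ i, |x (σ i) - x (σ (i + 1))|`, where the last
point is followed by the first one (`finRotate n` is `i ↦ i + 1`, `n - 1 ↦ 0`).
-/

namespace Pool.Agent.Results.MP_b3ccf3_pr.VarianceConverges

open MeasureTheory ProbabilityTheory Filter Topology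

/-- the length of the closed tour through the points `x` in the order `σ` -/
noncomputable def tourLength {n : ℕ} (x : Fin n → EuclideanSpace ℝ (Fin 2))
    (σ : Equiv.Perm (Fin n)) : ℝ :=
  ∑ i : Fin n, ‖x (σ i) - x (σ (finRotate n i))‖

/-- the length of a shortest closed tour through the points `x` -/
noncomputable def shortestTour {n : ℕ} (x : Fin n → EuclideanSpace ℝ (Fin 2)) : ℝ :=
  Finset.univ.inf' Finset.univ_nonempty (tourLength x)

/-- the unit square of the Euclidean plane -/
def unitSquare : Set (EuclideanSpace ℝ (Fin 2)) :=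
  {p | ∀ j, p j ∈ Set.Icc (0 : ℝ) 1}

theorem shortestTour_eq {n : ℕ} (x : Fin n → EuclideanSpace ℝ (Fin 2)) :
    shortestTour x = Pool.Agent.H42.TSP.Lf n (fun i => (x i 0, x i 1)) := by
  unfold shortestTour Pool.Agent.H42.TSP.Lf
  rw [Finset.inf'_univ_eq_ciInf]
  refine iInf_congr fun σ => Finset.sum_congr rfl fun i _ => ?_
  rw [EuclideanSpace.norm_eq]
  simp [Fin.sum_univ_two]

theorem continuous_coord :
    Continuous fun p : EuclideanSpace ℝ (Fin 2) => ((p 0, p 1) : ℝ × ℝ) := by
  fun_prop

theorem mp_coord : MeasurePreserving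
    (fun p : EuclideanSpace ℝ (Fin 2) => ((p 0, p 1) : ℝ × ℝ)) volume volume :=
  (volume_preserving_finTwoArrow ℝ).comp
    (EuclideanSpace.volume_preserving_symm_measurableEquiv_toLp (Fin 2))

theorem unitSquare_eq : unitSquare =
    (fun p : EuclideanSpace ℝ (Fin 2) => ((p 0, p 1) : ℝ × ℝ)) ⁻¹'
      (Set.Icc (0 : ℝ) 1 ×ˢ Set.Icc (0 : ℝ) 1) := by
  ext p
  simp only [unitSquare, Set.mem_ofPred_eq, Fin.forall_fin_two, Set.mem_preimage, Set.mem_prod]

theorem measurableSet_sq : MeasurableSet (Set.Icc (0 : ℝ) 1 ×ˢ Set.Icc (0 : ℝ) 1) :=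
  measurableSet_Icc.prod measurableSet_Icc

theorem volume_unitSquare : volume unitSquare = 1 := by
  rw [unitSquare_eq, mp_coord.measure_preimage measurableSet_sq.nullMeasurableSet,
    Measure.volume_eq_prod, Measure.prod_prod, Real.volume_Icc]
  norm_num

theorem map_coord {Ω : Type*} [MeasurableSpace Ω] (P : Measure Ω) [IsProbabilityMeasure P]
    (Y : Ω → EuclideanSpace ℝ (Fin 2)) (h : pdf.IsUniform Y unitSquare P) :
    P.map (fun ω => ((Y ω 0, Y ω 1) : ℝ × ℝ)) =
      volume.restrict (Set.Icc (0 : ℝ) 1 ×ˢ Set.Icc (0 : ℝ) 1) := by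
  have hY : AEMeasurable Y P := h.aemeasurable (by rw [volume_unitSquare]; simp)
    (by rw [volume_unitSquare]; simp)
  have h1 : P.map (fun ω => ((Y ω 0, Y ω 1) : ℝ × ℝ)) =
      (P.map Y).map (fun p : EuclideanSpace ℝ (Fin 2) => ((p 0, p 1) : ℝ × ℝ)) := by
    rw [AEMeasurable.map_map_of_aemeasurable continuous_coord.measurable.aemeasurable hY]
    rfl
  rw [h1, show P.map Y = ProbabilityTheory.cond volume unitSquare from h, ProbabilityTheory.cond,
    volume_unitSquare, inv_one, one_smul, unitSquare_eq]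
  exact (mp_coord.restrict_preimage measurableSet_sq).map_eq

theorem measurable_Lf (n : ℕ) : Measurable (Pool.Agent.H42.TSP.Lf n) := by
  unfold Pool.Agent.H42.TSP.Lf
  refine Measurable.iInf fun σ => ?_
  fun_prop

theorem variance_eq {Ω : Type*} [MeasurableSpace Ω] (P : Measure Ω) [IsProbabilityMeasure P]
    (n : ℕ) (X : Fin n → Ω → EuclideanSpace ℝ (Fin 2)) (hi : iIndepFun X P)
    (hu : ∀ i, pdf.IsUniform (X i) unitSquare P) :
    Var[fun ω => shortestTour (fun i => X i ω); P] =
      Var[Pool.Agent.H42.TSP.Lf n; volume.restrict (Pool.Agent.H42.TSP.cube n)] := by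
  have hX : ∀ i, AEMeasurable (X i) P := fun i =>
    (hu i).aemeasurable (by rw [volume_unitSquare]; simp) (by rw [volume_unitSquare]; simp)
  have hY : ∀ i, AEMeasurable (fun ω => ((X i ω 0, X i ω 1) : ℝ × ℝ)) P := fun i =>
    continuous_coord.measurable.comp_aemeasurable (hX i)
  have hYi : iIndepFun (fun i ω => ((X i ω 0, X i ω 1) : ℝ × ℝ)) P :=
    hi.comp (fun _ (p : EuclideanSpace ℝ (Fin 2)) => ((p 0, p 1) : ℝ × ℝ))
      fun _ => continuous_coord.measurable
  have hlaw : P.map (fun ω i => ((X i ω 0, X i ω 1) : ℝ × ℝ)) =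
      volume.restrict (Pool.Agent.H42.TSP.cube n) := by
    rw [hYi.map_fun_eq_pi_map hY]
    simp only [fun i => map_coord P (X i) (hu i)]
    unfold Pool.Agent.H42.TSP.cube
    rw [volume_pi, Measure.restrict_pi_pi]
  rw [← hlaw, variance_map (measurable_Lf n).aemeasurable (aemeasurable_pi_lambda _ hY)]
  congr 1
  funext ω
  exact shortestTour_eq _

/-- **The variance of the length of a shortest closed tour through `n` independent uniform random points
of the unit square converges to a finite constant.** -/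
theorem result :
    ∃ c : ℝ, ∀ (Ω : Type*) [MeasurableSpace Ω] (P : Measure Ω) [IsProbabilityMeasure P]
      (X : (n : ℕ) → Fin n → Ω → EuclideanSpace ℝ (Fin 2)),
      (∀ n, iIndepFun (X n) P) → (∀ n i, pdf.IsUniform (X n i) unitSquare P) →
      Tendsto (fun n => Var[fun ω => shortestTour (fun i => X n i ω); P]) atTop (𝓝 c) := by
  obtain ⟨c, hc⟩ := Pool.Agent.H42.TSP.main
  refine ⟨c, fun Ω _ P _ X hi hu => hc.congr fun n => ?_⟩
  rw [variance_eq P n (X n) (hi n) (hu n), Pool.Agent.H42.TSP.variance_eq]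

end Pool.Agent.Results.MP_b3ccf3_pr.VarianceConverges
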